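import Pool.Agent.H95.ILV.Targets

/-!
Row FWI: the Fourier coefficients of the Fejer weights.
-/

set_option autoImplicit false

open MeasureTheory AddCircle Filter Topology Pool.Agent.H87.Synth Pool.Agent.H23.Synth
  Pool.Agent.H95.ILV

namespace Pool.Agent.H76.ILV

theorem pf_FWI : T_FWI := by
  intro n m hn
  obtain ⟨N, rfl⟩ : ∃ N, n = N + 1 := ⟨n - 1, by omega⟩
  have h := coeff_fejerK N (-m)
  rw [coeff_def, neg_neg] at h
  have h2 : ∫ x, ((FW (N + 1) x : ℝ) : ℂ) * (fourier m x : ℂ) ∂(haarAddCircle : Measure Circ)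
      = ∫ x, fourier m x * (fejerK N : Circ → ℂ) x ∂haarAddCircle := by
    apply integral_congr_ae
    filter_upwards [coeFn_fejerK N] with x hx
    rw [hx, mul_comm, FW]
    push_cast
    ring
  rw [h2, h]
  push_cast
  rw [abs_neg]

end Pool.Agent.H76.ILV
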