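import Pool.Agent.H95.ILV.Targets

/-!
Row SUF: sums of dyadic Fejer weights.
-/

set_option autoImplicit false

open MeasureTheory AddCircle Filter Topology Pool.Agent.H87.Synth Pool.Agent.H23.Synth
  Pool.Agent.H95.ILV

namespace Pool.Agent.H76.ILV

theorem sum_range_Ico (n : ℕ) (x : Circ) : ∑ a ∈ Finset.range n, (fourier (a : ℤ) x : ℂ)
    = ∑ k ∈ Finset.Ico (0 : ℤ) (0 + n), (fourier k x : ℂ) := by
  rw [zero_add, Finset.range_eq_Ico]
  refine Finset.sum_nbij (fun a : ℕ => (a : ℤ)) ?_ ?_ ?_ ?_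
  · intro a ha
    simp only [Finset.mem_Ico] at ha ⊢
    omega
  · intro a _ b _ h
    exact Int.ofNat_inj.1 h
  · intro k hk
    simp only [Finset.coe_Ico, Set.mem_Ico] at hk
    refine ⟨k.toNat, ?_, ?_⟩
    · simp only [Finset.coe_Ico, Set.mem_Ico]
      omega
    · simp only
      omega
  · intro a _
    rfl

theorem FW_le_n (n : ℕ) (hn : 1 ≤ n) (x : Circ) : FW n x ≤ n := by
  have h := norm_sum_fourier_le 0 n x
  rw [← sum_range_Ico] at h
  have hn' : (0 : ℝ) < n := by exact_mod_cast hn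
  unfold FW
  calc (1 / (n : ℝ)) * ‖∑ a ∈ Finset.range n, (fourier (a : ℤ) x : ℂ)‖ ^ 2
      ≤ (1 / (n : ℝ)) * (n : ℝ) ^ 2 := by gcongr
    _ = (n : ℝ) := by field_simp

theorem FW_le_inv (n : ℕ) (hn : 1 ≤ n) (x : Circ) : rho x ^ 2 * FW n x ≤ 4 / n := by
  have h := norm_sum_fourier_mul_le 0 n x
  rw [← sum_range_Ico] at h
  have hn' : (0 : ℝ) < n := by exact_mod_cast hn
  have h0 : 0 ≤ ‖∑ a ∈ Finset.range n, (fourier (a : ℤ) x : ℂ)‖ * rho x :=
    mul_nonneg (norm_nonneg _) (rho_nonneg x)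
  have h2 : (‖∑ a ∈ Finset.range n, (fourier (a : ℤ) x : ℂ)‖ * rho x) ^ 2 ≤ 2 ^ 2 :=
    pow_le_pow_left₀ h0 h 2
  unfold FW
  rw [le_div_iff₀ hn']
  calc rho x ^ 2 * ((1 / (n : ℝ)) * ‖∑ a ∈ Finset.range n, (fourier (a : ℤ) x : ℂ)‖ ^ 2) * n
      = (‖∑ a ∈ Finset.range n, (fourier (a : ℤ) x : ℂ)‖ * rho x) ^ 2 := by
        field_simp
    _ ≤ 2 ^ 2 := h2
    _ = 4 := by norm_num

theorem suf_aux (x : Circ) (hx : 0 < rho x) (T : ℕ) :
    (2 ^ T * rho x ≤ 4 → rho x * ∑ t ∈ Finset.range T, FW (2 ^ t) x ≤ 2 ^ T * rho x) ∧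
    (4 < 2 ^ T * rho x → rho x * ∑ t ∈ Finset.range T, FW (2 ^ t) x ≤ 8 - 8 / (2 ^ T * rho x)) := by
  have hx2 : rho x ≤ 2 := by
    unfold rho
    refine (norm_sub_le _ _).trans ?_
    rw [norm_one]
    have : ‖(fourier 1 x : ℂ)‖ = 1 := by simp
    linarith
  induction T with
  | zero =>
    constructor
    · intro _
      simp [rho_nonneg]
    · intro h
      simp at h
      linarith
  | succ T ih =>
    have hy : 0 < (2 : ℝ) ^ T * rho x := by positivity
    have h1 : rho x * FW (2 ^ T) x ≤ 2 ^ T * rho x := by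
      have := FW_le_n (2 ^ T) Nat.one_le_two_pow x
      push_cast at this
      nlinarith
    have h2 : rho x * FW (2 ^ T) x ≤ 4 / (2 ^ T * rho x) := by
      have := FW_le_inv (2 ^ T) Nat.one_le_two_pow x
      push_cast at this
      rw [le_div_iff₀ hy]
      rw [le_div_iff₀ (by positivity)] at this
      linarith
    have hs : rho x * ∑ t ∈ Finset.range (T + 1), FW (2 ^ t) x
        = rho x * ∑ t ∈ Finset.range T, FW (2 ^ t) x + rho x * FW (2 ^ T) x := by
      rw [Finset.sum_range_succ]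
      ring
    have hp : (2 : ℝ) ^ (T + 1) * rho x = 2 * (2 ^ T * rho x) := by
      rw [pow_succ]
      ring
    rw [hs, hp]
    obtain ⟨i1, i2⟩ := ih
    generalize (2 : ℝ) ^ T * rho x = y at *
    generalize rho x * ∑ t ∈ Finset.range T, FW (2 ^ t) x = S at *
    generalize rho x * FW (2 ^ T) x = F at *
    constructor
    · intro h
      have := i1 (by linarith)
      linarith
    · intro h
      rcases le_or_gt y 4 with h4 | h4
      · have h5 := i1 h4
        have h6 : 8 / (2 * y) = 4 / y := by field_simp; norm_num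
        rw [h6]
        have h7 : y + 4 / y + 4 / y ≤ 8 := by
          have : y + 4 / y + 4 / y = (y ^ 2 + 8) / y := by field_simp; ring
          rw [this, div_le_iff₀ hy]
          nlinarith
        linarith
      · have h5 := i2 h4
        have h6 : 8 / (2 * y) = 4 / y := by field_simp; norm_num
        have h8 : 8 / y = 4 / y + 4 / y := by ring
        rw [h6]
        linarith

theorem pf_SUF : T_SUF := by
  intro T x
  rcases (rho_nonneg x).eq_or_lt with h | h
  · rw [← h]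
    norm_num
  · obtain ⟨h1, h2⟩ := suf_aux x h T
    rcases le_or_gt ((2 : ℝ) ^ T * rho x) 4 with h4 | h4
    · linarith [h1 h4]
    · have h5 := h2 h4
      have : 0 < 8 / ((2 : ℝ) ^ T * rho x) := by positivity
      linarith

end Pool.Agent.H76.ILV
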